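import Pool.Agent.W5h58.GC.Final

/-!
# The generalized Tate conjecture for products of almost all members of families with large
monodromy, in all degrees and for all levels

Let `Y` be a smooth projective variety over an algebraic closure of a finite field whose cohomology
is spanned by algebraic classes, for example a projective space. Let `F i`, for `i` in a finite set,
be families of varieties `X_s` over `Y` whose cohomology is the sum of the pull-back of the
cohomology of `Y` and of the vanishing part `P_s` of the cohomology of degree `dim X_s`, with large
symplectic or orthogonal monodromy: curves, hypersurfaces of any dimension, double covers, and so on.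
Let `e i` be the number of the eigenvalues `± q ^ (dim / 2)` of the Frobenius endomorphism on `P_s`
which are forced by the monodromy group; it is `0` in odd dimensions.

The other eigenvalues come in `g` pairs `α, q ^ dim / α`, and such a pair has two slopes
`μ, dim - μ`. Let `c i` be a number such that the vanishing part of the member `X_{i, s_i}` has the
geometric coniveau `c i`: always possible is `c i = 0`, and `c i = 1` for cubic threefolds and
fourfolds. Let `w i (n)` be the sum of the `n` smallest of the numbers `μ - c i` for the smaller
slopes `μ` of the member (for `n < g`; it is `n` times their average for `n ≥ g`). It is zero if at
least `n` of the pairs have the slopes `c i, dim - c i`: for all `n` for ordinary curves and cubic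
threefolds, for `n ≤ p_g` for ordinary varieties of geometric genus `p_g` with `c i = 0`, and for
`n ≤ 1` for ordinary cubic fourfolds.

**Theorem.** For all `ε > 0` and all large `m`, for all but at most `ε * ∏ i, #S_i(m)` of the tuples
`s` in the product of the sets `S_i(m)` of the parameters with coordinates in the field with `p ^ m`
elements, the following holds for **all products** `Z` of members `X_{i, s_i}` and copies of `Y`, with
any number of factors and any repetitions. Let `M` be the sum of the numbers `w i (n i)`, where `n i`
is the number of the factors `X_{i, s_i}` of `Z`. Then `N ^ r H(Z)` is contained in `N_l ^ r H(Z)` for
all `r`, and `N_l ^ r H(Z)` is contained in `N ^ r' H(Z)` for all `r, r'` with `M < r - r' + 1`. In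
particular, **if `M < 1`, then `N ^ r H(Z) = N_l ^ r H(Z)` for all `r`, the generalized Tate
conjecture in all degrees and for all levels**. This holds for all products of any number of ordinary
curves and cubic threefolds, and of ordinary varieties `X_i ^ (n i)`, where `n i` is at most the
number of the pairs with the slopes `c i, dim - c i`.

Here `N ^ r H(Z)` is the geometric coniveau filtration: the span of the classes supported on closed
subsets of codimension at least `r`, given as the classes `g_* (c y)` for morphisms `g` from `T` to
`Z`, cycle classes `c` on `T` of dimension at most `dim Z - r` and any `y`; these are the images of
the Gysin maps for `dim T ≤ dim Z - r`. And `N_l ^ r H(Z)` is the sum of the generalised eigenspaces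
of the Frobenius endomorphism for the eigenvalues `α` such that `α / q ^ r` is an algebraic integer.
This is the definition of the Galois coniveau for finite fields: the generalised eigenspaces for the
conjugates of `α` in the cohomology of degree `i` span a Galois-stable subspace `V`, and `V(r)` is
effective of weight `i - 2 r` if and only if `α / q ^ r` is an algebraic integer (then its complex
conjugate is an algebraic integer, too). It does not change under extensions of the finite field.

Hypotheses on the members (`IsAdmissible`): the coniveau `c i` (nothing if `c i = 0`), the bound `w i`
for the sum of the smallest slopes, given by the coefficients of the characteristic polynomial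
(`SlopeSumAtMost`), and if `e i ≠ 0`, then the eigenvectors for the forced eigenvalues
`± q ^ (dim / 2)` are algebraic (this is the case `i = 2 r` of the conjecture for the member itself,
and for families of odd dimension there is no such hypothesis).

**The proof.** By a sieve for the families with large monodromy the Galois group of the product of
the characteristic polynomials contains, for almost all tuples, all sign changes of the pairs of
roots, or (if `e i = 0` and the dimension is even) all double sign changes, and also, for every `i`,
all permutations of the roots of `h_i` which fix the roots of the other `h_j` (from Frobenius
elements for which `h_i` is irreducible, or the product of an irreducible and a linear factor, or of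
a quadratic and linear factors, and the other `h_j` split; the densities are computed for the
similitudes of symplectic and quadratic spaces). The cohomology of a product `Z` is spanned by the
products of an algebraic class of codimension `j` and of pull-backs of eigenvectors from different
factors, no two of which belong to a pair `α, q ^ dim / α`, since the external product of two such
eigenvectors is algebraic. If the eigenvalue of such a product is divisible by `q ^ r`, and
`α_1, α_2, ...` are the eigenvalues of the pull-backs, then `α_1 α_2 ⋯ / q ^ (r - j)` is an algebraic
integer, and so are all its conjugates. One of the conjugates has the pairs with the smallest slopes,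
and by the sign changes it follows that `r - j` is at most the sum of these slopes, hence at most
`M` plus the sum of the numbers `c i` of the factors. Pull-backs and products respect the geometric
coniveau filtration.
-/

open CategoryTheory AlgebraicGeometry Polynomial

universe u v

namespace Pool.Agent.Results.MP_8abef2_ag.AlmostAllConiveau

open Pool.Agent.H914 Pool.Agent.W534 Pool.Agent.W458.MF VarClass Obj WeilCohomology
  Pool.Agent.H281R3.HT Pool.Agent.W458.MF.Pol Pool.Agent.W5h58.GC

/-- **The generalized Tate conjecture for products of almost all members of families with large
monodromy.** -/
theorem result {k : Type u} [Field k] {𝒱 : VarClass k} {ops : CycleOps 𝒱}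
    (W : WeilCohomology.{u, v} ops) [IsAlgClosed W.K] (σ : W.K →+* ℂ) (p : ℕ)
    (hp : p.Prime) (Φ : FrobSystem W p) (Y : 𝒱.Obj) (hY : ∀ y : W.H Y, y ∈ algSpan W Y)
    {I : Type} [Fintype I] [DecidableEq I] (F : I → Family W Y) (e : I → ℕ)
    (hF : ∀ i, HasLargeMonodromy (F i) Φ (e i)) (ε : ℝ) (hε : 0 < ε) :
    ∃ m₀ : ℕ, ∀ m ≥ m₀, ({s : ∀ i, (F i).S m |
        ¬ ∀ (n c : I → ℕ) (w : I → ℝ),
          (∀ i, IsAdmissible Φ ((F i).member m (s i)) m (e i) (n i) (c i) (w i)) →
          ∀ Z, IsProductWith Y (fun i => ((F i).member m (s i)).obj) Z n →
            EqualUpTo (geometricConiveau Φ Z) (galoisConiveau Φ Z) (∑ i, w i)}.ncard : ℝ) ≤
      ε * ∏ i, (Nat.card ((F i).S m) : ℝ) :=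
  final_GC W σ p hp Φ Y hY F e hF ε hε

end Pool.Agent.Results.MP_8abef2_ag.AlmostAllConiveau
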