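import Pool.Agent.W5h93.EX.GTC

/-!
# The generalized Tate conjecture and the cubic hypersurfaces `T(x, y, z) = 1`, level by level

Let `k` be a number field or a finite field. For a smooth projective variety `X` over `k` and `r ≥ 0` let
`δ_r(X)` be the Laurent polynomial with the coefficients
`dim N^ν_ℓ H^(r+2ν)(X) - dim N^ν H^(r+2ν)(X)`, `ν ≥ 0`. As both coniveau filtrations are compatible with
direct sums and with Tate twists, `δ_r` is compatible with blow-ups; so it extends to an additive
invariant of all separated schemes of finite type (in characteristic zero by the theorem of Bittner;
in characteristic `p` by the weight complexes of Gillet and Soulé, since `δ_r` is defined on Chow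
motives). The level `r = 0` is the Tate conjecture, and level `r = 1` is about abelian varieties.

For every level `r` and every `n`, the generalized Tate conjecture in level `r` for all varieties of
dimension at most `n` is equivalent to `δ_r = 0` for the smooth affine cubic hypersurfaces
`T(x, y, z) = 1`, of arbitrary dimension, where `T` is a trilinear form over `k` one of whose blocks of
variables has at most `n + 2` variables. If `k` is a prime field then in all dimensions the
hypersurfaces `∑_{(i, j, l) ∈ H} x_i y_j z_l = 1` of the tripartite hypergraphs `H` are enough; for
`k = ℚ` and `k = 𝔽_p` the irreducible schemes over `k` include all varieties over all number fields, and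
over all finite fields of characteristic `p`.

In dimension at most `r + 1` the generalized Tate conjecture in level `r` is true, by hard Lefschetz.
Hence `δ_r = 0` for all trilinear forms with a block of at most `r + 3` variables.
-/

set_option autoImplicit false

open CategoryTheory AlgebraicGeometry Pool.Agent.Y116.UV Pool.Agent.W5h93.EV Pool.Agent.W5h93.EX

universe u v

namespace Pool.Agent.Results.MP_8abef2_ag.LevelByLevel

/-- **The generalized Tate conjecture in level `r` and trilinear forms.** -/
theorem result (k : Type) [Field k] [PerfectField k] (K : Type u) [Field K]
    (D : ConiveauData.{u, v} k K) (Q : Sch k → Prop) (hQ : IsClass Q) (hD : D.IsConiveau Q) (r : ℕ)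
    (δ : Sch k → ℤ → ℤ) (hδ : D.IsDefect Q r δ) :
    Reduces Q (D.GTC r) (Vanish δ) ∧ (ModelsIn Q (r + 1) → ForForms (Vanish δ) (r + 3)) := by
  have h : Reduces Q (D.GTC r) (Vanish δ) :=
    reduces (bnd_additive hδ.additive) hQ fun _ hX => gtc_iff hD hδ hX
  exact ⟨h, fun hM => (h.dim_iff_forms (r + 1) hM).mp (gtc_low hQ hD r)⟩

end Pool.Agent.Results.MP_8abef2_ag.LevelByLevel
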