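import Pool.Agent.W5h58.NF.Base

/-!
# The generalized Tate conjecture over number fields for products of powers of varieties with large
monodromy, with a slope condition at one place

Let `X_1, X_2, ...` be varieties over a number field whose cohomology is the sum of the algebraic
classes and of a transcendental part `T_i` in the middle degree, which is irreducible under all
subgroups of finite index of the Galois group, and which has an element acting by the
Picard-Lefschetz formula (a place where the reduction of `X_i` has an ordinary double point, and all
the others have good reduction): for example general curves, hypersurfaces, complete intersections,
double covers, K3 surfaces. In even dimensions let some product of such a reflection and of a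
conjugate have infinite order. Then the Zariski closure of the Galois group on `T_i` contains the
whole symplectic or special orthogonal group.

Let `γ` be a geometric Frobenius element at ONE place with `q` elements in the residue field, at
which everything has good reduction. Let `T_i` have the geometric coniveau `c_i` (always possible is
`c_i = 0`, and `c_i = 1` for cubic threefolds and fourfolds), and let `w_i(n)` be the sum of the `n`
smallest of the numbers `μ - c_i` for the slopes `μ` of `γ` on `T_i` (the slopes normalized by
`v(q) = 1`), where these slopes are smaller than `dim X_i / 2`. If the dimension of `X_i` is odd and
half of the slopes are `c_i`, let `w_i(n) = 0` for all `n`: this is the case for ordinary curves and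
ordinary cubic threefolds. In the other cases `w_i(n) = 0` if the slope `c_i` has the multiplicity at
least `n`, for example if `c_i = 0`, `n ≤ p_g` and `X_i` is ordinary at the place, and for `n = 1`
for ordinary K3 surfaces and cubic fourfolds.

**Theorem.** Let `Y` be the product of powers `X_i ^ (n_i)` of different members of the family and of
a variety `Z`, and let `w` be the sum of the numbers `w_i(n_i)`.

* If `w < 1` and the cohomology of `Z` is spanned by algebraic classes (for example, `Z` is a point),
  then the **generalized Tate conjecture holds for `Y`, in all degrees and for all levels**: every
  Galois-stable subspace `U` of `H(Y)` whose twist `U(r)` is effective (it suffices: stable under a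
  subgroup of finite index, and with integral eigenvalues at the given place) is contained in
  `N ^ r H(Y)`.
* If `w = 0` and `Z` is any variety, the generalized Tate conjecture for `Y` is equivalent to the
  generalized Tate conjecture for `Z`.
* In general the conjecture holds up to a defect: if `U` is stable and the eigenvalues are divisible
  by `q ^ x` and `w + M < x - r + 1`, then `U` is contained in `N ^ r H(Y)`, if the same holds for
  `Z` with `M` instead of `w + M`. If `w + M < 1` the generalized Tate conjecture holds for `Y`.

Here `N ^ r H(Y)` is the geometric coniveau filtration: the span of the classes supported on closed
subsets of codimension at least `r`, given as the classes `g_* (c y)` for morphisms `g` from `T` to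
`Y`, cycle classes `c` on `T` of dimension at most `dim Y - r` and any `y`. The slopes and the
numbers `w`, `M`, `x` are fractions with the denominator `D`. The group `Γ` is any group which acts
on the cohomology algebras, `χ` plays the role of the inverse of the cyclotomic character, and of
`q = χ γ` it is only used that it is an algebraic integer and not a unit.

**The proof.** By the Picard-Lefschetz formula, the Lie algebra of the operators on `T` which
preserve, for every finite-dimensional representation `E`, every subspace `U` of the space of
multilinear maps on `H(X)` with values in `E` which is stable under a subgroup of finite index,
contains the symplectic or orthogonal Lie algebra (for a transvection by differentiation of its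
powers, for two reflections by differentiation along the torus which contains infinitely many powers
of their product, and by irreducibility). Let `U` be a stable subspace of
`H(X ^ n × Z)`, given as a space of multilinear maps on `H(X)` with values in `H(Z)`. Let `K` be the
sum over all pairs of positions of the operators which contract the two positions and insert the
form; it maps `U` to itself or enlarges it to a space of the same kind, and by a positivity argument
(the coordinates are reduced to the rational numbers) the space is the direct sum of the kernel of
`K`, which consists of traceless maps, and of the image. The image is given by the class of the
diagonal of `X × X` and by the contractions, which have fewer transcendental positions, and are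
divisible by `q ^ (x - dim X)`. For a traceless space the coordinates with respect to an adapted
basis of eigenvectors of `γ` can be moved, by the Lie algebra (a highest weight vector has a
coordinate without dual pairs of letters: a Casimir argument), to coordinates with different letters
in a given set of letters with small slopes, or with letters in a given Lagrangian set. It follows
that the eigenvalues of `γ` on the space of values in `H(Z)` are divisible by the eigenvalues on `U`
divided by the product of the small eigenvalues, at every place over `p`, and the conjecture for `Z`
can be applied.

The tensor constructions for which the conjecture is proved have no Hodge-theoretic coniveau besides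
`c_i` and the one from algebraic classes; this is the meaning of the bound for `n_i`.
-/

open CategoryTheory AlgebraicGeometry

universe u v w

namespace Pool.Agent.Results.MP_8abef2_ag.NodalPowers

open Pool.Agent.H914 Pool.Agent.H914.VarClass Pool.Agent.H914.VarClass.Obj
  Pool.Agent.H914.WeilCohomology Pool.Agent.H281R3.HT Pool.Agent.W552 Pool.Agent.TH125.Gal
  Pool.Agent.W5h58.NF

/-- **The generalized Tate conjecture for products of powers of varieties with large monodromy.** -/
theorem result {k : Type u} [Field k] {𝒱 : VarClass k} {ops : CycleOps 𝒱}
    (W : WeilCohomology.{u, v} ops) [IsAlgClosed W.K] {Γ : Type w} [Group Γ] (χ : Γ →* W.Kˣ)
    (γ : Γ) (hγ : IsFrob χ γ) {ι : Type} (X : ι → GVar W Γ) (Z : GVar W Γ)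
    (hX : W5h58.NF.NodalFamily χ X Z) (D : ℕ) (hD : 0 < D) (S : Set ι) (w : ℕ)
    (Y : GVar W Γ) (hY : PowTower X Z (Admissible χ γ D) S w Y) :
    (∀ M, GTCUpTo χ γ D M Z → GTCUpTo χ γ D (M + w) Y ∧ (M + w < D → GTC χ γ Y)) ∧
    (w = 0 → (GTC χ γ Z ↔ GTC χ γ Y)) ∧
    (w < D → IsCellular χ Z → GTC χ γ Y) :=
  final_NF χ γ hγ hX hD hY

end Pool.Agent.Results.MP_8abef2_ag.NodalPowers
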