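import Pool.Agent.W5h93.EX.GTC
import Pool.Agent.W5h69.TR.Main

/-!
# The generalized Tate conjecture and torus actions of complexity at most `n`, level by level

Let `k` be a number field or a finite field. For a smooth projective variety `X` over `k` and `r ≥ 0` let
`δ_r(X)` be the Laurent polynomial with the coefficients
`dim N^ν_ℓ H^(r+2ν)(X) - dim N^ν H^(r+2ν)(X)`, `ν ≥ 0`. As both coniveau filtrations are compatible with
direct sums and with Tate twists, `δ_r` is compatible with blow-ups; so it extends to an additive
invariant of all separated schemes of finite type (in characteristic zero by the theorem of Bittner;
in characteristic `p` by the weight complexes of Gillet and Soulé, since `δ_r` is defined on Chow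
motives). The level `r = 0` is the Tate conjecture, and level `r = 1` is about abelian varieties.

Let `X` be a closed subscheme of an affine space which is stable under a torus acting diagonally. It is
of complexity at most `n` if each stratum of `X` (given by the vanishing and non-vanishing of the
coordinates) has dimension at most `n` plus the dimension of the orbits in the stratum. There is no
restriction on the dimension of `X` and on its singularities.

For every level `r` and every `n`, the generalized Tate conjecture in level `r` for all varieties of
dimension at most `n` is equivalent to `δ_r = 0` for all torus schemes of complexity at most `n`, and for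
all schemes built from them by closed-open decompositions. Explicit members of this class are the
schemes given by `c` linearly independent equations with at most `c + n + 1` monomials altogether, also
with additional equations with two terms, and the inverse images of the cones of dimension at most
`n + 1` under the monomial maps between affine spaces.

In dimension at most `r + 1` the generalized Tate conjecture in level `r` is true, by hard Lefschetz.
Hence `δ_r = 0` for all schemes with torus actions of complexity at most `r + 1`, for example for all
systems of `c` linearly independent equations with at most `c + r + 2` monomials.

The theorem on torus actions is due to helper38, the systems in few monomials to helper38 and helper68,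
the invariant `δ_r` to helper93 (`MP_8abef2_ag/LevelByLevel`).
-/

set_option autoImplicit false

open CategoryTheory AlgebraicGeometry Pool.Agent.Y116.UV Pool.Agent.W5h93.EV Pool.Agent.W5h93.EX
  Pool.Agent.W5h38.TV Pool.Agent.W5h69.TR Pool.Agent.W5h68.SP

universe u v

namespace Pool.Agent.Results.MP_8abef2_ag.TorusActions

/-- **The generalized Tate conjecture in level `r` and torus actions of complexity at most `n`.** -/
theorem result (k : Type) [Field k] [PerfectField k] (K : Type u) [Field K]
    (D : ConiveauData.{u, v} k K) (Q : Sch k → Prop) (hQ : IsClass Q) (hD : D.IsConiveau Q) (r : ℕ)
    (δ : Sch k → ℤ → ℤ) (hδ : D.IsDefect Q r δ) :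
    TorusReduces Q (D.GTC r) (Vanish δ) ∧
      (ModelsIn Q (r + 1) → (∀ X : Sch k, Built (r + 1) X → Vanish δ X) ∧
        Cones (r + 1) (Vanish δ) ∧ Sparse (r + 1) (Vanish δ)) := by
  have h : TorusReduces Q (D.GTC r) (Vanish δ) :=
    torusReduces (bnd_additive hδ.additive) hQ fun _ hX => gtc_iff hD hδ hX
  exact ⟨h, fun hM => ⟨(h.dim_iff_built (r + 1) hM).mp (gtc_low hQ hD r),
    h.few (r + 1) hM (gtc_low hQ hD r)⟩⟩

end Pool.Agent.Results.MP_8abef2_ag.TorusActions
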